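import Pool.Agent.P.MP_0ff3a5_nt.All.Null
import Pool.Agent.P.MP_0ff3a5_nt.All.Third

namespace Pool.Agent.P.MP_0ff3a5_nt.Old.OddTerm
open MeasureTheory Pool.Agent.P.MP_0ff3a5_nt

/-- For Lebesgue-almost every `α` with `1 < α < (1 + √5) / 2` and for every `t > 0`: every large
integer is a sum of distinct values `⌊t α^n⌋` if and only if some value `⌊t α^n⌋` is odd. -/
theorem result : ∀ᵐ α : ℝ, 1 < α → α < (1 + √5) / 2 → ∀ t : ℝ, 0 < t →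
    ((∃ N : ℤ, ∀ m ≥ N, ∃ F : Finset ℤ,
      (∀ x ∈ F, ∃ n : ℕ, x = ⌊t * α ^ n⌋) ∧ ∑ x ∈ F, x = m) ↔
    ∃ n : ℕ, Odd ⌊t * α ^ n⌋) := by
  filter_upwards [All.ae_local_global, All.ae_third] with α h h3 a1 a2 t ht
  have s5 : √5 * √5 = 5 := Real.mul_self_sqrt (by norm_num)
  have s0 : 0 ≤ √5 := Real.sqrt_nonneg _
  exact ⟨fun hg => All.Good.odd hg, fun ho => h a1 (by nlinarith) t ht
    (All.locSol_of_odd a1 ht (h3 a1 (by nlinarith)) ho)⟩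

end Pool.Agent.P.MP_0ff3a5_nt.Old.OddTerm
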